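import Pool.Agent.H569Z.Zak.Main

/-!
A nondegenerate irreducible fourfold in `P^7` (so `N - 1 = 6 = (k + 1)(N - n - 1)` for `k = 2`)
whose double locus `X_2` is disconnected for every centre `O` in a dense open subset of `P^7`.
-/

namespace Pool.Agent.Results.MP_1812d6_ag.ADisconnected

open Pool.Agent.H569Z.Zak

theorem result : ∃ X : Set (PP 7), IsVariety X 4 ∧ Nondeg X ∧
    ∃ U : Set (PP 7), @IsOpen _ (zar 7) U ∧ @Dense _ (zar 7) U ∧
      ∀ O ∈ U, O ∉ X ∧ ∀ π : (Fin 8 → ℂ) →ₗ[ℂ] (Fin 7 → ℂ), Function.Surjective π →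
        LinearMap.ker π = Submodule.span ℂ {O.rep} →
        ¬ @IsPreconnected _ (zar 6) (multLocus X O π 2) :=
  main

end Pool.Agent.Results.MP_1812d6_ag.ADisconnected
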